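import Mathlib

/-!
# The divisor bound
-/

set_option autoImplicit false

open Finset

namespace Pool.Agent.Helper91.KC

theorem card_divisors_bound (ε : ℝ) (hε : 0 < ε) : ∃ C : ℝ, 1 ≤ C ∧ ∀ n : ℕ, 0 < n →
    (n.divisors.card : ℝ) ≤ C * (n : ℝ) ^ ε := by
  obtain ⟨N0, hN0⟩ := exists_nat_ge ((2 : ℝ) ^ (1 / ε))
  have hl2 : 0 < Real.log 2 := Real.log_pos (by norm_num)
  have hel : 0 < ε * Real.log 2 := mul_pos hε hl2
  obtain ⟨K, hK⟩ : ∃ K : ℝ, K = max 1 (1 / (ε * Real.log 2)) := ⟨_, rfl⟩
  have hK1 : 1 ≤ K := by rw [hK]; exact le_max_left _ _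
  have hK2 : 1 ≤ K * (ε * Real.log 2) := by
    have : 1 / (ε * Real.log 2) ≤ K := by rw [hK]; exact le_max_right _ _
    rwa [div_le_iff₀ hel] at this
  refine ⟨K ^ (N0 + 1), one_le_pow₀ hK1, ?_⟩
  intro n hn
  have key : ∀ p ∈ n.primeFactors, ((n.factorization p + 1 : ℕ) : ℝ) ≤
      (if p ≤ N0 then K else 1) * ((p : ℝ) ^ (n.factorization p)) ^ ε := by
    intro p hp
    have hp2 : (2 : ℝ) ≤ p := by exact_mod_cast (Nat.prime_of_mem_primeFactors hp).two_le
    set a := n.factorization p with ha
    split_ifs with h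
    · have h1 : (1 : ℝ) + a * (ε * Real.log 2) ≤ ((p : ℝ) ^ a) ^ ε := by
        calc (1 : ℝ) + a * (ε * Real.log 2) ≤ Real.exp (a * (ε * Real.log 2)) := by
              have := Real.add_one_le_exp (a * (ε * Real.log 2))
              linarith
          _ = ((2 : ℝ) ^ a) ^ ε := by
              rw [Real.rpow_def_of_pos (by positivity), Real.log_pow]
              congr 1
              ring
          _ ≤ _ := Real.rpow_le_rpow (by positivity) (pow_le_pow_left₀ (by norm_num) hp2 a) hε.le
      have h2 := mul_le_mul_of_nonneg_left h1 (by linarith : (0 : ℝ) ≤ K)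
      push_cast
      have h3 : (a : ℝ) * 1 ≤ a * (K * (ε * Real.log 2)) :=
        mul_le_mul_of_nonneg_left hK2 (Nat.cast_nonneg _)
      nlinarith
    · push Not at h
      have h1 : (2 : ℝ) ≤ (p : ℝ) ^ ε := by
        have h2 : (2 : ℝ) ^ (1 / ε) ≤ p := hN0.trans (by exact_mod_cast h.le)
        have h3 := Real.rpow_le_rpow (by positivity) h2 hε.le
        rwa [← Real.rpow_mul (by norm_num), one_div_mul_cancel hε.ne', Real.rpow_one] at h3
      rw [one_mul, ← Real.rpow_natCast, ← Real.rpow_mul (by positivity), mul_comm,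
        Real.rpow_mul (by positivity), Real.rpow_natCast]
      calc ((a + 1 : ℕ) : ℝ) ≤ (2 : ℝ) ^ a := by exact_mod_cast Nat.succ_le_of_lt (Nat.lt_two_pow_self)
        _ ≤ _ := pow_le_pow_left₀ (by norm_num) h1 a
  calc (n.divisors.card : ℝ) = ∏ p ∈ n.primeFactors, ((n.factorization p + 1 : ℕ) : ℝ) := by
        rw [Nat.card_divisors hn.ne']
        push_cast
        rfl
    _ ≤ ∏ p ∈ n.primeFactors, ((if p ≤ N0 then K else 1) * ((p : ℝ) ^ (n.factorization p)) ^ ε) :=
        Finset.prod_le_prod (fun _ _ => Nat.cast_nonneg _) key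
    _ = (∏ p ∈ n.primeFactors, (if p ≤ N0 then K else 1)) *
        (∏ p ∈ n.primeFactors, ((p : ℝ) ^ (n.factorization p)) ^ ε) := Finset.prod_mul_distrib
    _ = (∏ p ∈ n.primeFactors, (if p ≤ N0 then K else 1)) * (n : ℝ) ^ ε := by
        rw [Real.finsetProd_rpow _ _ (fun i _ => by positivity)]
        congr 2
        have := Nat.prod_factorization_pow_eq_self hn.ne'
        rw [Finsupp.prod, Nat.support_factorization] at this
        exact_mod_cast this
    _ ≤ K ^ (N0 + 1) * (n : ℝ) ^ ε := by
        apply mul_le_mul_of_nonneg_right _ (by positivity)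
        rw [Finset.prod_ite, Finset.prod_const, Finset.prod_const_one, mul_one]
        apply pow_le_pow_right₀ hK1
        calc _ ≤ (range (N0 + 1)).card := by
              apply Finset.card_le_card
              intro p hp
              rw [Finset.mem_filter] at hp
              rw [Finset.mem_range]
              omega
          _ = N0 + 1 := Finset.card_range _

end Pool.Agent.Helper91.KC
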