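import Pool.Agent.Helper60.KS.St
import Pool.Agent.Helper91.KC.DivBound

/-!
# Project KS, module KC-15: powers of Dirichlet polynomials
-/

set_option autoImplicit false
set_option maxHeartbeats 4000000

open Finset

namespace Pool.Agent.Helper91.KC

open Pool.Agent.Helper60.KS

/-- coefficients of the product -/
noncomputable def mulC (f : ℕ → ℂ) (P h : ℕ) (g : ℕ → ℂ) (Q h' : ℕ) (n : ℕ) : ℂ :=
  ∑ x ∈ n.divisorsAntidiagonal, (if x.1 ∈ Ioc P (h * P) then f x.1 else 0) *
    (if x.2 ∈ Ioc Q (h' * Q) then g x.2 else 0)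

theorem DP_mul (f : ℕ → ℂ) (P h : ℕ) (g : ℕ → ℂ) (Q h' : ℕ) (s : ℂ) :
    DP f P h s * DP g Q h' s = DP (mulC f P h g Q h') (P * Q) (h * h') s := by
  unfold DP
  rw [Finset.sum_mul_sum, ← Finset.sum_product']
  have hmap : ∀ p ∈ Ioc P (h * P) ×ˢ Ioc Q (h' * Q), p.1 * p.2 ∈ Ioc (P * Q) (h * h' * (P * Q)) := by
    intro p hp
    rw [Finset.mem_product, Finset.mem_Ioc, Finset.mem_Ioc] at hp
    rw [Finset.mem_Ioc]
    constructor
    · exact Nat.mul_lt_mul'' hp.1.1 hp.2.1
    · calc p.1 * p.2 ≤ (h * P) * (h' * Q) := Nat.mul_le_mul hp.1.2 hp.2.2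
        _ = _ := by ring
  rw [← Finset.sum_fiberwise_of_maps_to hmap]
  refine Finset.sum_congr rfl fun n hn => ?_
  rw [Finset.mem_Ioc] at hn
  have hn0 : n ≠ 0 := by omega
  unfold mulC
  rw [Finset.sum_mul]
  have e1 : ∑ x ∈ n.divisorsAntidiagonal, ((if x.1 ∈ Ioc P (h * P) then f x.1 else 0) *
      (if x.2 ∈ Ioc Q (h' * Q) then g x.2 else 0)) * (n : ℂ) ^ (-s) =
      ∑ x ∈ n.divisorsAntidiagonal.filter (fun x => x.1 ∈ Ioc P (h * P) ∧ x.2 ∈ Ioc Q (h' * Q)),
        f x.1 * g x.2 * (n : ℂ) ^ (-s) := by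
    rw [Finset.sum_filter]
    refine Finset.sum_congr rfl fun x _ => ?_
    by_cases h1 : x.1 ∈ Ioc P (h * P)
    · by_cases h2 : x.2 ∈ Ioc Q (h' * Q)
      · rw [if_pos h1, if_pos h2, if_pos ⟨h1, h2⟩]
      · rw [if_neg h2, if_neg (not_and_of_not_right _ h2), mul_zero, zero_mul]
    · rw [if_neg h1, if_neg (not_and_of_not_left _ h1), zero_mul, zero_mul]
  rw [e1]
  have e2 : (Ioc P (h * P) ×ˢ Ioc Q (h' * Q)).filter (fun p => p.1 * p.2 = n) =
      n.divisorsAntidiagonal.filter (fun x => x.1 ∈ Ioc P (h * P) ∧ x.2 ∈ Ioc Q (h' * Q)) := by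
    ext p
    rw [Finset.mem_filter, Finset.mem_filter, Finset.mem_product, Nat.mem_divisorsAntidiagonal]
    tauto
  rw [e2]
  refine Finset.sum_congr rfl fun p hp => ?_
  rw [Finset.mem_filter, Nat.mem_divisorsAntidiagonal] at hp
  rw [← hp.1.1]
  push_cast
  rw [Complex.natCast_mul_natCast_cpow]
  ring

theorem norm_mulC {f g : ℕ → ℂ} {P h Q h' : ℕ} {A B : ℝ} (hA : 0 ≤ A) (hB : 0 ≤ B)
    (hf : ∀ n, ‖f n‖ ≤ A) (hg : ∀ n ∈ Ioc Q (h' * Q), ‖g n‖ ≤ B) (n : ℕ) :
    ‖mulC f P h g Q h' n‖ ≤ n.divisors.card * (A * B) := by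
  unfold mulC
  refine (norm_sum_le _ _).trans ?_
  refine (Finset.sum_le_card_nsmul _ _ (A * B) fun x hx => ?_).trans ?_
  · rw [norm_mul]
    apply mul_le_mul _ _ (norm_nonneg _) hA
    · split_ifs
      · exact hf _
      · simpa using hA
    · split_ifs with h2
      · exact hg _ h2
      · simpa using hB
  · rw [nsmul_eq_mul]
    have : n.divisorsAntidiagonal.card = n.divisors.card := by
      rw [← Nat.map_div_right_divisors, Finset.card_map]
    rw [this]

/-- truncation of the coefficients -/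
theorem DP_trunc (f : ℕ → ℂ) (P h : ℕ) (s : ℂ) :
    DP (fun n => if n ∈ Ioc P (h * P) then f n else 0) P h s = DP f P h s := by
  unfold DP
  refine Finset.sum_congr rfl fun n hn => ?_
  simp only [hn, if_true]

theorem powDP : PowDP := by
  intro k ε hk hε
  induction k, hk using Nat.le_induction generalizing ε with
  | base =>
    obtain ⟨C, hC, hd⟩ := card_divisors_bound ε hε
    refine ⟨C * 2 ^ ε, by positivity, ?_⟩
    intro g Q hQ hg
    refine ⟨fun n => if n ∈ Ioc Q (2 * Q) then g n else 0, ?_, ?_⟩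
    · intro n
      beta_reduce
      split_ifs with h
      · rw [Finset.mem_Ioc] at h
        calc ‖g n‖ ≤ (n.divisors.card : ℝ) := hg n
          _ ≤ C * (n : ℝ) ^ ε := hd n (by omega)
          _ ≤ C * (2 * (Q : ℝ)) ^ ε := by
              apply mul_le_mul_of_nonneg_left _ (by positivity)
              apply Real.rpow_le_rpow (Nat.cast_nonneg _) _ hε.le
              exact_mod_cast h.2
          _ = C * 2 ^ ε * (Q : ℝ) ^ ε := by
              rw [Real.mul_rpow (by norm_num) (Nat.cast_nonneg _)]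
              ring
      · rw [norm_zero]
        positivity
    · intro s
      rw [pow_one, pow_one, pow_one, DP_trunc]
  | succ k hk ih =>
    obtain ⟨C1, hC1, h1⟩ := ih (ε / 3) (by positivity)
    obtain ⟨C2, hC2, h2⟩ := card_divisors_bound (ε / 3) (by positivity)
    obtain ⟨C3, hC3, h3⟩ := card_divisors_bound (ε / (3 * (k + 1))) (by positivity)
    refine ⟨(C3 * (2 ^ (k + 1)) ^ (ε / (3 * (k + 1)))) * (C1 * (C2 * 2 ^ (ε / 3))), by positivity, ?_⟩
    intro g Q hQ hg
    have hQ0 : (0 : ℝ) < Q := by exact_mod_cast hQ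
    obtain ⟨b, hb, hbs⟩ := h1 g Q hQ hg
    have hg' : ∀ n ∈ Ioc Q (2 * Q), ‖g n‖ ≤ C2 * 2 ^ (ε / 3) * (Q : ℝ) ^ (ε / 3) := by
      intro n h
      rw [Finset.mem_Ioc] at h
      calc ‖g n‖ ≤ (n.divisors.card : ℝ) := hg n
        _ ≤ C2 * (n : ℝ) ^ (ε / 3) := h2 n (by omega)
        _ ≤ C2 * (2 * (Q : ℝ)) ^ (ε / 3) := by
            apply mul_le_mul_of_nonneg_left _ (by positivity)
            apply Real.rpow_le_rpow (Nat.cast_nonneg _) _ (by positivity)
            exact_mod_cast h.2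
        _ = C2 * 2 ^ (ε / 3) * (Q : ℝ) ^ (ε / 3) := by
            rw [Real.mul_rpow (by norm_num) (Nat.cast_nonneg _)]
            ring
    refine ⟨fun n => if n ∈ Ioc (Q ^ (k + 1)) (2 ^ (k + 1) * Q ^ (k + 1)) then
      mulC b (Q ^ k) (2 ^ k) g Q 2 n else 0, ?_, ?_⟩
    · intro n
      beta_reduce
      split_ifs with h
      · rw [Finset.mem_Ioc] at h
        have hn0 : 0 < n := by
          have := Nat.zero_le (Q ^ (k + 1))
          omega
        have e1 := norm_mulC (h := 2 ^ k) (P := Q ^ k) (by positivity) (by positivity) hb hg' n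
        have e2 : (n.divisors.card : ℝ) ≤
            C3 * (2 ^ (k + 1)) ^ (ε / (3 * (k + 1))) * (Q : ℝ) ^ (ε / 3) := by
          calc (n.divisors.card : ℝ) ≤ C3 * (n : ℝ) ^ (ε / (3 * (k + 1))) := h3 n hn0
            _ ≤ C3 * ((2 ^ (k + 1)) * (Q : ℝ) ^ (k + 1)) ^ (ε / (3 * (k + 1))) := by
                apply mul_le_mul_of_nonneg_left _ (by positivity)
                apply Real.rpow_le_rpow (Nat.cast_nonneg _) _ (by positivity)
                exact_mod_cast h.2
            _ = _ := by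
                rw [Real.mul_rpow (by positivity) (by positivity), ← Real.rpow_natCast (Q : ℝ),
                  ← Real.rpow_mul hQ0.le]
                have : ((k + 1 : ℕ) : ℝ) * (ε / (3 * (k + 1))) = ε / 3 := by
                  push_cast
                  field_simp
                rw [this]
                ring
        calc _ ≤ (n.divisors.card : ℝ) * (C1 * (Q : ℝ) ^ (ε / 3) *
              (C2 * 2 ^ (ε / 3) * (Q : ℝ) ^ (ε / 3))) := e1
          _ ≤ C3 * (2 ^ (k + 1)) ^ (ε / (3 * (k + 1))) * (Q : ℝ) ^ (ε / 3) *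
              (C1 * (Q : ℝ) ^ (ε / 3) * (C2 * 2 ^ (ε / 3) * (Q : ℝ) ^ (ε / 3))) :=
              mul_le_mul_of_nonneg_right e2 (by positivity)
          _ = (C3 * (2 ^ (k + 1)) ^ (ε / (3 * (k + 1)))) * (C1 * (C2 * 2 ^ (ε / 3))) *
              ((Q : ℝ) ^ (ε / 3) * (Q : ℝ) ^ (ε / 3) * (Q : ℝ) ^ (ε / 3)) := by ring
          _ = _ := by
              rw [← Real.rpow_add hQ0, ← Real.rpow_add hQ0]
              congr 2
              ring
      · rw [norm_zero]
        positivity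
    · intro s
      have e1 := DP_trunc (mulC b (Q ^ k) (2 ^ k) g Q 2) (Q ^ (k + 1)) (2 ^ (k + 1)) s
      rw [e1, pow_succ, hbs s, DP_mul, pow_succ, pow_succ]

end Pool.Agent.Helper91.KC
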